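import Pool.Agent.W680.WH.Stm

/-!
# Project WHH (MP_af71ff_an): statements of the parts on strong continuity
-/

set_option autoImplicit false

open scoped ComplexConjugate InnerProductSpace
open ContinuousLinearMap Filter

namespace Pool.Agent.W680.WH

/-- WHC-DR: as `S_DR`, with small `d` for small `r`. -/
def S_DRC : Prop :=
  ∀ ε : ℝ, 0 < ε → ∃ δ : ℝ, 0 < δ ∧ δ < 1 ∧ ∀ r : ℝ, 0 ≤ r → r < δ →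
    ∃ d : E →L[ℂ] E, adjoint d = -d ∧
    (∀ f, jj (d f) = d (jj f)) ∧ ‖d‖ ≤ ε ∧
    ∀ G P P2 P2i : E →L[ℂ] E, G = Ring.inverse (1 - (r : ℂ) • Z) →
      P = (Z - (r : ℂ) • 1) * G →
      P2 = (Z2 - (r : ℂ) • 1) * Ring.inverse (1 - (r : ℂ) • Z2) →
      P2i = (Zs - (r : ℂ) • 1) * Ring.inverse (1 - (r : ℂ) • Zs) →
      ((1 - r ^ 2 : ℝ) : ℂ) • (G * X * G) =
        -((2 : ℂ) • (P - P2) + (P - P2) * P2i * (P - P2)) + (P * d - d * P)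

/-- WHC-UNI: as `S_UNI`, with `V (eb 0)` close to `eb 0` for small `r`. -/
def S_UNIC : Prop :=
  ∀ ε : ℝ, 0 < ε → ∃ δ : ℝ, 0 < δ ∧ δ < 1 ∧ ∀ r : ℝ, 0 ≤ r → r < δ →
    ∃ V : E →L[ℂ] E, adjoint V * V = 1 ∧ V * adjoint V = 1 ∧
    (1 + (r : ℂ) • Z) * V * Z = (Z + (r : ℂ) • (1 : E →L[ℂ] E)) * V ∧
    (∀ f, jj (V f) = V (jj f)) ∧ 0 < (⟪eb 0, V (eb 0)⟫_ℂ).re ∧ ‖V (eb 0) - eb 0‖ ≤ ε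

/-- WHC-LSM: small lifts. -/
def S_LSM : Prop :=
  ∀ ε : ℝ, 0 < ε → ∃ δ : ℝ, 0 < δ ∧ δ < 1 ∧ ∀ (r : ℝ) (ρ : Mob), 0 ≤ r → r < δ →
    ρ.c = 1 → ρ.a = r → ∃ V d : E →L[ℂ] E, Lift ρ V d ∧ Pos V ∧ ‖V (eb 0) - eb 0‖ ≤ ε ∧ ‖d‖ ≤ ε

/-- WHC-LS2: the lifts of small hyperbolic elements are strongly close to the identity, uniformly
over rotations. -/
def S_LS2 : Prop :=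
  ∀ (f : E) (ε : ℝ), 0 < ε → ∃ δ : ℝ, 0 < δ ∧ δ < 1 ∧ ∀ (r : ℝ) (ρ : Mob) (V d : E →L[ℂ] E),
    0 ≤ r → r < δ → ρ.c = 1 → ρ.a = r → Lift ρ V d → Pos V →
      ‖d‖ ≤ ε ∧ ∀ k : Circle, ‖V (R k f) - R k f‖ ≤ ε

/-- WHC-GAM: the intertwiner with its explicit form. -/
def S_GAM2 : Prop :=
  ∃ (Γ : Mob → (E2 →L[ℂ] E2)ˣ) (C : ℝ),
    (∀ φ : Mob, (Γ φ : E2 →L[ℂ] E2) * φ.op T = T * (Γ φ : E2 →L[ℂ] E2)) ∧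
    (∀ φ ψ χ : Mob, (∀ z : ℂ, ‖z‖ < 1 → φ.act (ψ.act z) = χ.act z) → Γ χ = Γ φ * Γ ψ) ∧
    (∀ φ : Mob, ‖(Γ φ : E2 →L[ℂ] E2)‖ ≤ C) ∧
    (∀ φ : Mob, ∃ V d : E →L[ℂ] E, Lift φ V d ∧ Pos V ∧ (Γ φ : E2 →L[ℂ] E2) = blk V (V * d) V)

/-- WHC-PAR: parameters of `ψ⁻¹ ∘ φ` for `φ` close to `ψ`. -/
def S_PAR : Prop :=
  ∀ (ψ : Mob) (δ : ℝ), 0 < δ → ∃ η : ℝ, 0 < η ∧ ∀ φ : Mob, ‖φ.c - ψ.c‖ < η → ‖φ.a - ψ.a‖ < η →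
    ∃ χ : Mob, (∀ z : ℂ, ‖z‖ < 1 → ψ.act (χ.act z) = φ.act z) ∧ ‖χ.c - 1‖ < δ ∧ ‖χ.a‖ < δ

/-- WHC-CO1: strong continuity at the identity. -/
def S_CO1 : Prop :=
  ∀ (Γ : Mob → (E2 →L[ℂ] E2)ˣ) (C : ℝ),
    (∀ φ ψ χ : Mob, (∀ z : ℂ, ‖z‖ < 1 → φ.act (ψ.act z) = χ.act z) → Γ χ = Γ φ * Γ ψ) →
    (∀ φ : Mob, ‖(Γ φ : E2 →L[ℂ] E2)‖ ≤ C) →
    (∀ φ : Mob, ∃ V d : E →L[ℂ] E, Lift φ V d ∧ Pos V ∧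
      (Γ φ : E2 →L[ℂ] E2) = blk V (V * d) V) →
    ∀ (x : E2) (ε : ℝ), 0 < ε → ∃ δ : ℝ, 0 < δ ∧ ∀ φ : Mob, ‖φ.c - 1‖ < δ → ‖φ.a‖ < δ →
      ‖(Γ φ : E2 →L[ℂ] E2) x - x‖ ≤ ε

/-- WHC-GCO: the uniformly bounded, strongly continuous homomorphic intertwiner. -/
def S_GCO : Prop :=
  ∃ (Γ : Mob → (E2 →L[ℂ] E2)ˣ) (C : ℝ),
    (∀ φ : Mob, (Γ φ : E2 →L[ℂ] E2) * φ.op T = T * (Γ φ : E2 →L[ℂ] E2)) ∧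
    (∀ φ ψ χ : Mob, (∀ z : ℂ, ‖z‖ < 1 → φ.act (ψ.act z) = χ.act z) → Γ χ = Γ φ * Γ ψ) ∧
    (∀ φ : Mob, ‖(Γ φ : E2 →L[ℂ] E2)‖ ≤ C) ∧
    (∀ (ψ : Mob) (x : E2) (ε : ℝ), 0 < ε → ∃ η : ℝ, 0 < η ∧ ∀ φ : Mob, ‖φ.c - ψ.c‖ < η →
      ‖φ.a - ψ.a‖ < η → ‖(Γ φ : E2 →L[ℂ] E2) x - (Γ ψ : E2 →L[ℂ] E2) x‖ < ε)

end Pool.Agent.W680.WH
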