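import Mathlib

/-!
# Project WHH (MP_af71ff_an): definitions

`E` is the Hilbert space of square summable families indexed by the integers; `eb n` is the
orthogonal basis of square norms `om n`, and `Z` is the bilateral shift `eb n ↦ eb (n+1)`
(multiplication by the coordinate on a Sobolev space of the circle).
-/

set_option autoImplicit false

open scoped ComplexConjugate InnerProductSpace

namespace Pool.Agent.W680.WH

/-- square summable families indexed by the integers -/
noncomputable abbrev E := lp (fun _ : ℤ => ℂ) 2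

/-- the weights: the square of the norm of `eb n` -/
noncomputable def om (n : ℤ) : ℝ :=
  ∏ i ∈ Finset.range n.natAbs, ((4 * (i : ℝ) + 3) / (4 * (i : ℝ) + 1))

lemma om_pos (n : ℤ) : 0 < om n := by
  unfold om; exact Finset.prod_pos (fun i _ => by positivity)

lemma om_neg (n : ℤ) : om (-n) = om n := by simp [om]

lemma om_zero : om 0 = 1 := by simp [om]

lemma om_succ_nat (n : ℕ) : om ((n : ℤ) + 1) = om n * ((4 * (n : ℝ) + 3) / (4 * (n : ℝ) + 1)) := by
  have h1 : ((n : ℤ) + 1).natAbs = n + 1 := by omega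
  unfold om
  rw [h1, Finset.prod_range_succ]
  simp

lemma om_succ (n : ℤ) : om (n + 1) = om n * ((4 * (n : ℝ) + 3) / (4 * (n : ℝ) + 1)) := by
  obtain ⟨m, rfl | rfl⟩ := n.eq_nat_or_neg
  · simpa using om_succ_nat m
  · rcases m with _ | m
    · simpa using om_succ_nat 0
    · have h := om_succ_nat m
      have h1 : (-((m + 1 : ℕ) : ℤ) + 1) = -(m : ℤ) := by push_cast; ring
      rw [h1, om_neg, om_neg]
      have h2 : ((m + 1 : ℕ) : ℤ) = (m : ℤ) + 1 := by push_cast; ring
      rw [h2, h]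
      have a1 : (4 * (m : ℝ) + 1) ≠ 0 := by positivity
      have a2 : (4 * (m : ℝ) + 3) ≠ 0 := by positivity
      have a8 : ((-((m : ℤ) + 1) : ℤ) : ℝ) = -((m : ℝ) + 1) := by push_cast; ring
      have a9 : (4 * (-((m : ℝ) + 1)) + 3) / (4 * (-((m : ℝ) + 1)) + 1)
          = (4 * (m : ℝ) + 1) / (4 * (m : ℝ) + 3) := by
        have a5 : (4 * (-((m : ℝ) + 1)) + 3) = -(4 * (m : ℝ) + 1) := by ring
        have a6 : (4 * (-((m : ℝ) + 1)) + 1) = -(4 * (m : ℝ) + 3) := by ring
        rw [a5, a6, neg_div_neg_eq]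
      rw [a8, a9]
      field_simp

/-- comparison of neighbouring weights -/
lemma om_ratio_le (n : ℤ) : om (n + 1) ≤ 3 * om n ∧ om n ≤ 3 * om (n + 1) := by
  have key : ∀ m : ℕ, om ((m : ℤ) + 1) ≤ 3 * om m ∧ om (m : ℤ) ≤ om ((m : ℤ) + 1) := by
    intro m
    have h := om_succ_nat m
    have hp := om_pos (m : ℤ)
    have hr : (4 * (m : ℝ) + 3) / (4 * (m : ℝ) + 1) ≤ 3 := by
      rw [div_le_iff₀ (by positivity)]; nlinarith [Nat.cast_nonneg (α := ℝ) m]
    have hr' : 1 ≤ (4 * (m : ℝ) + 3) / (4 * (m : ℝ) + 1) := by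
      rw [le_div_iff₀ (by positivity)]; linarith
    constructor
    · rw [h]; nlinarith
    · rw [h]; nlinarith
  obtain ⟨m, rfl | rfl⟩ := n.eq_nat_or_neg
  · refine ⟨(key m).1, ?_⟩
    have := (key m).2
    have hp := om_pos ((m : ℤ) + 1)
    linarith
  · rcases m with _ | m
    · have := key 0
      simp only [Nat.cast_zero, zero_add, neg_zero] at this ⊢
      have hp := om_pos 1
      exact ⟨this.1, by linarith [this.2]⟩
    · have h1 : (-((m + 1 : ℕ) : ℤ) + 1) = -(m : ℤ) := by push_cast; ring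
      rw [h1, om_neg, om_neg]
      have h2 : ((m + 1 : ℕ) : ℤ) = (m : ℤ) + 1 := by push_cast; ring
      rw [h2]
      have hp := om_pos ((m : ℤ) + 1)
      exact ⟨by linarith [(key m).2], (key m).1⟩

lemma wsh_mem (k : ℤ) (c : ℤ → ℂ) (C : ℝ) (hc : ∀ n, ‖c n‖ ≤ C) (f : E) :
    Memℓp (fun n => c n * f (n - k)) 2 := by
  have hf : Memℓp (fun n => f n) 2 := lp.memℓp f
  rw [memℓp_gen_iff (by norm_num)] at hf ⊢
  have h1 : Summable fun n : ℤ => ‖f (n - k)‖ ^ (2 : ENNReal).toReal :=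
    hf.comp_injective (fun a b h => by simpa using h)
  have hC : 0 ≤ C := le_trans (norm_nonneg _) (hc 0)
  refine Summable.of_nonneg_of_le (fun n => by positivity) (fun n => ?_)
    (h1.mul_left (C ^ (2 : ENNReal).toReal))
  rw [norm_mul, ← Real.mul_rpow hC (norm_nonneg _)]
  exact Real.rpow_le_rpow (by positivity) (mul_le_mul_of_nonneg_right (hc n) (norm_nonneg _))
    (by norm_num)

lemma E_norm_sq (f : E) : ‖f‖ ^ 2 = ∑' n, ‖f n‖ ^ 2 := by
  have h := lp.norm_rpow_eq_tsum (p := 2) (by norm_num) f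
  simpa using h

lemma E_summable (f : E) : Summable fun n => ‖f n‖ ^ 2 := by
  have hf : Memℓp (fun n => f n) 2 := lp.memℓp f
  rw [memℓp_gen_iff (by norm_num)] at hf
  simpa using hf

/-- weighted shift by `k` with coefficients `c`: `(wsh k c f) n = c n * f (n - k)` -/
noncomputable def wsh (k : ℤ) (c : ℤ → ℂ) (C : ℝ) (hc : ∀ n, ‖c n‖ ≤ C) : E →L[ℂ] E :=
  LinearMap.mkContinuous
    { toFun := fun f => (⟨fun n => c n * f (n - k), wsh_mem k c C hc f⟩ : E)
      map_add' := fun f g => by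
        ext n
        change c n * (f (n - k) + g (n - k)) = c n * f (n - k) + c n * g (n - k)
        ring
      map_smul' := fun a f => by
        ext n
        change c n * (a * f (n - k)) = a * (c n * f (n - k))
        ring } C (by
    intro f
    have hC : 0 ≤ C := le_trans (norm_nonneg _) (hc 0)
    have h1 : Summable fun n : ℤ => ‖f (n - k)‖ ^ 2 :=
      (E_summable f).comp_injective (fun a b h => by simpa using h)
    have h2 : ∑' n : ℤ, ‖f (n - k)‖ ^ 2 = ∑' n, ‖f n‖ ^ 2 :=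
      (Equiv.subRight k).tsum_eq (fun n => ‖f n‖ ^ 2)
    refine le_of_sq_le_sq ?_ (by positivity)
    rw [E_norm_sq, mul_pow, E_norm_sq f, ← h2, ← tsum_mul_left]
    refine (E_summable _).tsum_le_tsum (fun n => ?_) (h1.mul_left _)
    simp only [LinearMap.coe_mk, AddHom.coe_mk]
    rw [norm_mul, mul_pow]
    exact mul_le_mul_of_nonneg_right (pow_le_pow_left₀ (norm_nonneg _) (hc n) 2) (by positivity))

lemma wsh_apply (k : ℤ) (c : ℤ → ℂ) (C : ℝ) (hc : ∀ n, ‖c n‖ ≤ C) (f : E) (n : ℤ) :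
    wsh k c C hc f n = c n * f (n - k) := rfl

lemma sq_ratio_bound (x y : ℝ) (_hx : 0 < x) (hy : 0 < y) (h : x ≤ 3 * y) :
    ‖((Real.sqrt (x / y) : ℝ) : ℂ)‖ ≤ 2 := by
  rw [Complex.norm_real, Real.norm_of_nonneg (Real.sqrt_nonneg _)]
  rw [Real.sqrt_le_left (by norm_num)]
  rw [div_le_iff₀ hy]
  linarith

/-- multiplication by the coordinate: `Z (eb n) = eb (n+1)` -/
noncomputable def Z : E →L[ℂ] E :=
  wsh 1 (fun n => ((Real.sqrt (om n / om (n - 1)) : ℝ) : ℂ)) 2 (fun n =>
    sq_ratio_bound _ _ (om_pos _) (om_pos _) (by have := (om_ratio_le (n - 1)).1; simpa using this))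

/-- the inverse of `Z` -/
noncomputable def Zi : E →L[ℂ] E :=
  wsh (-1) (fun n => ((Real.sqrt (om n / om (n + 1)) : ℝ) : ℂ)) 2 (fun n =>
    sq_ratio_bound _ _ (om_pos _) (om_pos _) (om_ratio_le n).2)

/-- the adjoint of `Z` -/
noncomputable def Zs : E →L[ℂ] E :=
  wsh (-1) (fun n => ((Real.sqrt (om (n + 1) / om n) : ℝ) : ℂ)) 2 (fun n =>
    sq_ratio_bound _ _ (om_pos _) (om_pos _) (om_ratio_le n).1)

/-- the inverse of the adjoint of `Z`: `Z2 (eb n) = ((4n+1)/(4n+3)) eb (n+1)` -/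
noncomputable def Z2 : E →L[ℂ] E :=
  wsh 1 (fun n => ((Real.sqrt (om (n - 1) / om n) : ℝ) : ℂ)) 2 (fun n =>
    sq_ratio_bound _ _ (om_pos _) (om_pos _) (by have := (om_ratio_le (n - 1)).2; simpa using this))

/-- `Q (eb n) = (2/(4n+3)) eb (n+1)` -/
noncomputable def Q : E →L[ℂ] E := Z - Z2

/-- the off-diagonal entry of the counterexample -/
noncomputable def X : E →L[ℂ] E := -((2 : ℂ) • Q + Q * Zs * Q)

/-- rotation `eb n ↦ k^n eb n` -/
noncomputable def R (k : Circle) : E →L[ℂ] E :=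
  wsh 0 (fun n => ((k ^ n : Circle) : ℂ)) 1 (fun _ => (Circle.norm_coe _).le)

/-- basis vectors, of square norm `om n` -/
noncomputable def eb (n : ℤ) : E := lp.single 2 n ((Real.sqrt (om n) : ℝ) : ℂ)

/-- coordinates with respect to the vectors `eb n` -/
noncomputable def co (f : E) (n : ℤ) : ℂ := f n / ((Real.sqrt (om n) : ℝ) : ℂ)

lemma jj_mem (f : E) : Memℓp (fun n => conj (f (-n))) 2 := by
  have hf : Memℓp (fun n => f n) 2 := lp.memℓp f
  rw [memℓp_gen_iff (by norm_num)] at hf ⊢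
  have h1 : Summable fun n : ℤ => ‖f (-n)‖ ^ (2 : ENNReal).toReal :=
    hf.comp_injective (fun a b h => by simpa using h)
  simpa using h1

/-- the real structure (pointwise complex conjugation of functions on the circle) -/
noncomputable def jj (f : E) : E := ⟨fun n => conj (f (-n)), jj_mem f⟩

/-- the Hilbert space of the counterexample -/
noncomputable abbrev E2 := WithLp 2 (E × E)

/-- upper triangular operator on `E2`: `(f, g) ↦ (A f + B g, D g)` -/
noncomputable def blk (A B D : E →L[ℂ] E) : E2 →L[ℂ] E2 :=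
  (WithLp.prodContinuousLinearEquiv 2 ℂ E E).symm.toContinuousLinearMap ∘L
    ((A ∘L ContinuousLinearMap.fst ℂ E E + B ∘L ContinuousLinearMap.snd ℂ E E).prod
      (D ∘L ContinuousLinearMap.snd ℂ E E)) ∘L
    (WithLp.prodContinuousLinearEquiv 2 ℂ E E).toContinuousLinearMap

lemma blk_fst (A B D : E →L[ℂ] E) (x : E2) : (blk A B D x).fst = A x.fst + B x.snd := rfl
lemma blk_snd (A B D : E →L[ℂ] E) (x : E2) : (blk A B D x).snd = D x.snd := rfl

/-- the operator of the counterexample -/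
noncomputable def T : E2 →L[ℂ] E2 := blk Z X Z

/-- Moebius transform of an operator: `c (T - a)(1 - conj a T)⁻¹` -/
noncomputable def mob {H : Type} [NormedAddCommGroup H] [NormedSpace ℂ H] (c a : ℂ)
    (A : H →L[ℂ] H) : H →L[ℂ] H :=
  c • ((A - a • (1 : H →L[ℂ] H)) * Ring.inverse ((1 : H →L[ℂ] H) - (conj a) • A))

end Pool.Agent.W680.WH
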