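import Pool.Agent.W680.WH.Stm2

/-!
# Weakly homogeneous operators: the definitions used in the final statement, and the final step
-/

set_option autoImplicit false

open scoped ComplexConjugate InnerProductSpace Topology

namespace Pool.Agent.W680.WHF

/-- An element of the Moebius group of the unit disc, given by its (unique) parameters:
the map `z ↦ c (z - a) / (1 - conj a z)` with `|c| = 1` and `|a| < 1`. -/
structure Moeb where
  c : ℂ
  a : ℂ
  norm_c : ‖c‖ = 1
  norm_a : ‖a‖ < 1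

/-- the value of the Moebius map at the point `z` -/
noncomputable def Moeb.map (φ : Moeb) (z : ℂ) : ℂ := φ.c * ((z - φ.a) / (1 - conj φ.a * z))

/-- `IsComp χ φ ψ`: the Moebius map `χ` is the composition `φ ∘ ψ` (on the unit disc) -/
def IsComp (χ φ ψ : Moeb) : Prop := ∀ z : ℂ, ‖z‖ < 1 → χ.map z = φ.map (ψ.map z)

/-- `φ(T) = c (T - a)(1 - conj a T)⁻¹` (used for bounded operators `T` with spectrum in the closed
unit disc, for which the inverse exists) -/
noncomputable def Moeb.app {A : Type} [Ring A] [Algebra ℂ A] (φ : Moeb) (T : A) : A :=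
  φ.c • ((T - φ.a • (1 : A)) * Ring.inverse (1 - (conj φ.a) • T))

/-- unitary equivalence in the algebra `A` of bounded operators -/
def UnitarilyEquivalent {A : Type} [Ring A] [StarRing A] (S T : A) : Prop :=
  ∃ U : unitary A, S = (U : A) * T * star (U : A)

/-- similarity in the algebra `A` of bounded operators -/
def IsSimilar {A : Type} [Ring A] (S T : A) : Prop :=
  ∃ X : Aˣ, S = (X : A) * T * ((X⁻¹ : Aˣ) : A)

/-- the spectrum of `T` lies in the closed unit disc -/
def SpectrumInDisc {A : Type} [Ring A] [Algebra ℂ A] (T : A) : Prop :=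
  spectrum ℂ T ⊆ Metric.closedBall 0 1

/-- homogeneous operators: the spectrum lies in the closed unit disc and `φ(T)` is unitarily
equivalent to `T` for all Moebius maps `φ` -/
def IsHomogeneous {A : Type} [Ring A] [StarRing A] [Algebra ℂ A] (T : A) : Prop :=
  SpectrumInDisc T ∧ ∀ φ : Moeb, UnitarilyEquivalent (φ.app T) T

/-- `T` is similar to a homogeneous operator -/
def IsSimilarToHomogeneous {A : Type} [Ring A] [StarRing A] [Algebra ℂ A] (T : A) : Prop :=
  ∃ S : A, IsHomogeneous S ∧ IsSimilar T S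

/-- `Γ` is an intertwiner for `T`: `φ(T) = Γ(φ)⁻¹ T Γ(φ)` -/
def IsIntertwiner {A : Type} [Ring A] [Algebra ℂ A] (T : A) (Γ : Moeb → Aˣ) : Prop :=
  ∀ φ : Moeb, φ.app T = (((Γ φ)⁻¹ : Aˣ) : A) * T * (Γ φ : A)

/-- `Γ` is a homomorphism: `Γ(φ ∘ ψ) = Γ(φ) Γ(ψ)` -/
def IsHom {G : Type} [Group G] (Γ : Moeb → G) : Prop :=
  ∀ χ φ ψ : Moeb, IsComp χ φ ψ → Γ χ = Γ φ * Γ ψ

/-- `Γ` is uniformly bounded -/
def IsUniformlyBounded {A : Type} [NormedRing A] (Γ : Moeb → Aˣ) : Prop :=
  ∃ C : ℝ, ∀ φ : Moeb, ‖(Γ φ : A)‖ ≤ C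

/-- `Γ` is strongly continuous: if the parameters of `φ n` tend to those of `ψ`, then
`Γ (φ n) x` tends to `Γ ψ x`, for every vector `x` -/
def IsStronglyContinuous {H : Type} [NormedAddCommGroup H] [NormedSpace ℂ H]
    (Γ : Moeb → (H →L[ℂ] H)ˣ) : Prop :=
  ∀ (φ : ℕ → Moeb) (ψ : Moeb) (x : H),
    Filter.Tendsto (fun n => (φ n).c) Filter.atTop (𝓝 ψ.c) →
    Filter.Tendsto (fun n => (φ n).a) Filter.atTop (𝓝 ψ.a) →
    Filter.Tendsto (fun n => (Γ (φ n) : H →L[ℂ] H) x) Filter.atTop (𝓝 ((Γ ψ : H →L[ℂ] H) x))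

/-- `T` has an intertwiner which is a uniformly bounded and strongly continuous homomorphism -/
def HasBoundedHomIntertwiner {H : Type} [NormedAddCommGroup H] [NormedSpace ℂ H]
    (T : H →L[ℂ] H) : Prop :=
  ∃ Γ : Moeb → (H →L[ℂ] H)ˣ,
    IsIntertwiner T Γ ∧ IsHom Γ ∧ IsUniformlyBounded Γ ∧ IsStronglyContinuous Γ

open Pool.Agent.W680.WH

/-- conversion of parameters -/
noncomputable def conv1 (φ : Moeb) : Mob := ⟨φ.c, φ.a, φ.norm_c, φ.norm_a⟩
/-- conversion of parameters -/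
noncomputable def conv2 (φ : Mob) : Moeb := ⟨φ.c, φ.a, φ.hc, φ.ha⟩

theorem sepE : TopologicalSpace.SeparableSpace E := by
  have h1 : ∀ f : E, HasSum (fun i : ℤ => (lp.single 2 i (f i) : E)) f :=
    fun f => lp.hasSum_single (by norm_num) f
  have h2 : Dense ((Submodule.span ℂ (Set.range fun i : ℤ => (lp.single 2 i (1 : ℂ) : E)) :
      Submodule ℂ E) : Set E) := by
    rw [dense_iff_closure_eq, Set.eq_univ_iff_forall]
    intro f
    refine mem_closure_of_tendsto (h1 f) (Filter.Eventually.of_forall fun s => ?_)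
    refine Submodule.sum_mem _ fun i _ => ?_
    have : (lp.single 2 i (f i) : E) = (f i) • (lp.single 2 i (1 : ℂ) : E) := by
      rw [← lp.single_smul]; simp
    rw [this]
    exact Submodule.smul_mem _ _ (Submodule.subset_span ⟨i, rfl⟩)
  have h3 : TopologicalSpace.IsSeparable
      ((Submodule.span ℂ (Set.range fun i : ℤ => (lp.single 2 i (1 : ℂ) : E)) :
      Submodule ℂ E) : Set E) := by
    apply TopologicalSpace.IsSeparable.span
    exact (Set.countable_range _).isSeparable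
  rw [← TopologicalSpace.isSeparable_univ_iff]
  have h4 := h3.closure
  rwa [h2.closure_eq] at h4

theorem sepE2 : TopologicalSpace.SeparableSpace E2 := by
  have h0 : TopologicalSpace.SeparableSpace E := sepE
  have : TopologicalSpace.SeparableSpace (E × E) := inferInstance
  exact (WithLp.prodContinuousLinearEquiv 2 ℂ E E).symm.toHomeomorph.surjective.denseRange.separableSpace
    (WithLp.prodContinuousLinearEquiv 2 ℂ E E).symm.continuous

theorem final (hG : S_GCO) (hN : S_NH) (hB : S_BLM) :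
    ∃ (H : Type) (_ : NormedAddCommGroup H) (_ : InnerProductSpace ℂ H) (_ : CompleteSpace H)
    (_ : TopologicalSpace.SeparableSpace H) (T : H →L[ℂ] H),
    SpectrumInDisc T ∧ HasBoundedHomIntertwiner T ∧ ¬ IsSimilarToHomogeneous T := by
  obtain ⟨Γ, C, h1, h2, h3, h4⟩ := hG
  refine ⟨E2, inferInstance, inferInstance, inferInstance, sepE2, T, hB.2.2.1,
    ⟨fun φ => Γ (conv1 φ), fun φ => ?_, fun χ φ ψ h => ?_, ⟨C, fun φ => h3 _⟩,
      fun φ ψ x hc ha => ?_⟩, ?_⟩
  · have := h1 (conv1 φ)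
    calc φ.app T = (conv1 φ).op T := rfl
      _ = ((Γ (conv1 φ))⁻¹ : (E2 →L[ℂ] E2)ˣ) * ((Γ (conv1 φ) : E2 →L[ℂ] E2) * (conv1 φ).op T) := by
          rw [← mul_assoc, Units.inv_mul, one_mul]
      _ = _ := by rw [this, mul_assoc]
  · exact h2 (conv1 φ) (conv1 ψ) (conv1 χ) (fun z hz => (h z hz).symm)
  · rw [Metric.tendsto_atTop]
    intro ε hε
    obtain ⟨η, hη, hh⟩ := h4 (conv1 ψ) x ε hε
    rw [Metric.tendsto_atTop] at hc ha
    obtain ⟨N1, hN1⟩ := hc η hη
    obtain ⟨N2, hN2⟩ := ha η hη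
    refine ⟨max N1 N2, fun n hn => ?_⟩
    rw [dist_eq_norm]
    refine hh (conv1 (φ n)) ?_ ?_
    · have := hN1 n (le_trans (le_max_left _ _) hn)
      rwa [dist_eq_norm] at this
    · have := hN2 n (le_trans (le_max_right _ _) hn)
      rwa [dist_eq_norm] at this
  · rintro ⟨S, hS, X, hX⟩
    have hSX : S = ((X⁻¹ : (E2 →L[ℂ] E2)ˣ) : E2 →L[ℂ] E2) * T *
        (((X⁻¹)⁻¹ : (E2 →L[ℂ] E2)ˣ) : E2 →L[ℂ] E2) := by
      rw [hX, inv_inv]
      simp only [← mul_assoc, Units.inv_mul, one_mul]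
      rw [mul_assoc, Units.inv_mul, mul_one]
    refine hN X⁻¹ fun φ => ?_
    rw [← hSX]
    obtain ⟨U, hU⟩ := hS.2 (conv2 φ)
    refine ⟨star (U : E2 →L[ℂ] E2), ?_, ?_, ?_⟩
    · have := U.2.2
      simpa [ContinuousLinearMap.star_eq_adjoint] using this
    · have := U.2.1
      simpa [ContinuousLinearMap.star_eq_adjoint] using this
    · have h5 : φ.op S = (conv2 φ).app S := rfl
      rw [h5, hU, ← ContinuousLinearMap.star_eq_adjoint, star_star]

end Pool.Agent.W680.WHF
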