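import Pool.Agent.W680.WH.Fin0
import Pool.Agent.W816.WH.Kn2
import Pool.Agent.W287.WH.CO1
import Pool.Agent.W680.WH.Stm2
import Pool.Agent.W154.WH.OM
import Pool.Agent.W503.WH.Ker
import Pool.Agent.W885.WH.Opa
import Pool.Agent.W418.WH.Opr
import Pool.Agent.W381.WH.Opj
import Pool.Agent.W366.WH.OPC
import Pool.Agent.W778.WHH.INV
import Pool.Agent.W563.WH.Sch
import Pool.Agent.W405.WH.DR
import Pool.Agent.W308.WH.HV
import Pool.Agent.W918.WH.Irr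
import Pool.Agent.W571.WH.Uni
import Pool.Agent.W696.WH.Mobc
import Pool.Agent.W177.WH.Mobg
import Pool.Agent.W683.WH.Bla
import Pool.Agent.W591.WHH.Blm
import Pool.Agent.W915.WH.Lun
import Pool.Agent.W604.WH.LMU
import Pool.Agent.W428.WH.Lex
import Pool.Agent.W503.WH.Sgn
import Pool.Agent.W73.WHH.Pos
import Pool.Agent.W368.WH.GAM
import Pool.Agent.W585.WH.GRO
import Pool.Agent.W925.WH.Com
import Pool.Agent.W589.WH.Ort
import Pool.Agent.W479.WH.Low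
import Pool.Agent.W402.WHH.Cpt
import Pool.Agent.W132.WH.Wie
import Pool.Agent.W103.WH.Wi2
import Pool.Agent.W392.WH.KN1
import Pool.Agent.W419.WH.Kn3
import Pool.Agent.W496.WH.KN
import Pool.Agent.W856.WH.Dia
import Pool.Agent.W612.WH.Alg
import Pool.Agent.W303.WH.Fin
import Pool.Agent.W348.WH.NHP
import Pool.Agent.W675.WH.Rec
import Pool.Agent.W214.WH.Log
import Pool.Agent.W923.WH.DRC
import Pool.Agent.W496.WH.GAM2
import Pool.Agent.W584.WH.GCO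
import Pool.Agent.W74.WH.Ls2
import Pool.Agent.W366.WH.LSM
import Pool.Agent.W54.WH.Par
import Pool.Agent.W724.WH.Unic

/-!
# Project WHH (MP_af71ff_an): assembly
-/

set_option autoImplicit false

namespace Pool.Agent.W680.WHM

open Pool.Agent.W680.WH

theorem pOM : S_OM := Pool.Agent.W154.WH.OM.om_stm
theorem pOPA : S_OPA := Pool.Agent.W885.WH.opa
theorem pOPR : S_OPR := Pool.Agent.W418.WH.Opr.main
theorem pOPJ : S_OPJ := Pool.Agent.W381.WH.opj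
theorem pOPC : S_OPC := Pool.Agent.W366.WHOPC.main pOPA
theorem pINV : S_INV := Pool.Agent.W778.WHH.INV.main pOM pOPA pOPC
theorem pKER : S_KER := Pool.Agent.W503.WH.Ker.ker
theorem pLOG : S_LOG := Pool.Agent.W214.WH.log_ pOM pOPA pOPC pOPJ
theorem pSCH : S_SCH := Pool.Agent.W563.WH.Sch.sch pKER
theorem pDR : S_DR := Pool.Agent.W405.WH.DR.main pLOG pSCH pOPA pINV pOPJ
theorem pHV : S_HV := Pool.Agent.W308.WHHV.hv pOPC
theorem pREC : S_REC := Pool.Agent.W675.WH.rec_main pOM pOPA pOPC pOPJ pINV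
theorem pIRR : S_IRR := Pool.Agent.W918.WH.irr_holds pOPA pOPC
theorem pUNI : S_UNI := Pool.Agent.W571.WH.Uni.uni pHV pREC pOPA pOPC pOPJ pINV pIRR
theorem pMOBC : S_MOBC := Pool.Agent.W696.WH.mobc
theorem pMOBG : S_MOBG := Pool.Agent.W177.WH.mobg
theorem pBLA : S_BLA := Pool.Agent.W683.WH.Bla.bla
theorem pBLM : S_BLM := Pool.Agent.W591.WHH.blm pBLA pINV
theorem pLUN : S_LUN := Pool.Agent.W915.WH.Lun.main pIRR pOPA pOPJ pOPC pMOBC pMOBG pBLA pBLM pINV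
theorem pLMU : S_LMU := Pool.Agent.W604.WH.lmu pMOBC pMOBG pBLA pBLM pOPJ
theorem pLEX : S_LEX :=
  Pool.Agent.W428.WH.Lex.main pUNI pDR pMOBG pBLA pBLM pINV pLMU pOPA pOPR pOPJ pOPC
theorem pSGN : S_SGN := Pool.Agent.W503.WH.Sgn.sgn
theorem pPOS : S_POS := Pool.Agent.W73.WHH.pos_proof pLEX pLUN pLMU pSGN pMOBG pOPR pOPC
theorem pGAM2 : S_GAM2 := Pool.Agent.W496.WH.GAM2.gam2 pLEX pLUN pLMU pPOS pBLA
theorem pGRO : S_GRO := Pool.Agent.W585.WH.GRO.gro pOM pOPA pOPC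
theorem pCOM : S_COM := Pool.Agent.W925.WH.Com.com pGRO pOPA pOPC pBLA pOM
theorem pORT : S_ORT := Pool.Agent.W589.WH.ort
theorem pLOW : S_LOW := Pool.Agent.W479.WH.low pOM pOPA pOPC
theorem pCPT : S_CPT := Pool.Agent.W402.WHH.cpt
theorem pWIE : S_WIE := Pool.Agent.W132.WH.wie pCPT
theorem pWI2 : S_WI2 := Pool.Agent.W103.WH.wi2 pWIE
theorem pKN1 : S_KN1 := Pool.Agent.W392.WH.KN1.kn1 pLOW pWI2 pOM pOPA pOPC pOPR
theorem pKN3 : S_KN3 := Pool.Agent.W419.WH.kn3_ pOPA pOPC pOPR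
theorem pKN2 : S_KN2 := Pool.Agent.W816.WH.Kn2.kn2 pOM pOPA pOPC pOPR
theorem pKN : S_KN := Pool.Agent.W496.WH.KN.main pKN1 pKN2 pKN3
theorem pDIA : S_DIA := Pool.Agent.W856.WH.Dia.dia pOM pOPA pOPC pOPR pKN2
theorem pALG : S_ALG := Pool.Agent.W612.WH.alg
theorem pFIN : S_FIN := Pool.Agent.W303.WH.fin pALG pOM pOPA pOPC pINV
theorem pNH : S_NH :=
  Pool.Agent.W348.WH.t_NH pCOM pORT pKN pDIA pFIN pLEX pBLA pBLM pMOBC pINV
theorem pUNIC : S_UNIC := Pool.Agent.W724.WH.whc_unic pUNI pOPA pOPC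
theorem pDRC : S_DRC := Pool.Agent.W923.WH.DRC.main pLOG pOPC pOPA pINV pOPJ
theorem pLSM : S_LSM := Pool.Agent.W366.WH.LSM.main pUNIC pDRC pBLA pBLM pINV pOPA
theorem pLS2 : S_LS2 := Pool.Agent.W74.WH.Ls2.ls2 pLSM pLUN pOPR pOPC pOPA pINV pBLA pBLM
theorem pPAR : S_PAR := Pool.Agent.W54.WH.par
theorem pCO1 : S_CO1 := Pool.Agent.W287.WH.co1 pLS2 pLEX pLUN pMOBG pOPR pOPC
theorem pGCO : S_GCO := Pool.Agent.W584.WH.tGCO pGAM2 pPAR pCO1

end Pool.Agent.W680.WHM
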