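import Pool.Agent.W680.WH.Defs

/-!
# Project WHH (MP_af71ff_an): statements of the parts
-/

set_option autoImplicit false

open scoped ComplexConjugate InnerProductSpace
open ContinuousLinearMap Filter

namespace Pool.Agent.W680.WH

/-- WHH-OM: facts about the weights. -/
def S_OM : Prop :=
  (∀ n : ℤ, 1 ≤ om n) ∧
  (∀ m n : ℤ, m.natAbs ≤ n.natAbs → om m ≤ om n) ∧
  (∀ m n : ℤ, om (m + n) ≤ om m * om n) ∧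
  Tendsto (fun N : ℕ => om N) atTop atTop ∧
  (∀ k : ℤ, Tendsto (fun N : ℕ => om (k + N) / om N) atTop (nhds 1))

/-- WHH-KER: kernel bound. -/
def S_KER : Prop :=
  ∃ C : ℝ, ∀ m n : ℤ, m ≠ n → m.natAbs ≤ n.natAbs →
    |Real.sqrt (om m / om n) - Real.sqrt (om n / om m)| / |(m : ℝ) - n| ≤
      C * (1 + (n.natAbs : ℝ)) ^ (-(3 / 4) : ℝ) * (1 + (m.natAbs : ℝ)) ^ (-(1 / 4) : ℝ)

/-- WHH-OPA: products, adjoints, action on the basis. -/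
def S_OPA : Prop :=
  (Z * Zi = 1 ∧ Zi * Z = 1 ∧ Z2 * Zs = 1 ∧ Zs * Z2 = 1) ∧
  (adjoint Z = Zs ∧ adjoint Zi = Z2) ∧
  ((∀ n : ℤ, Z (eb n) = eb (n + 1)) ∧ (∀ n : ℤ, Zi (eb n) = eb (n - 1)) ∧
    (∀ n : ℤ, Z2 (eb n) = ((4 * (n : ℂ) + 1) / (4 * (n : ℂ) + 3)) • eb (n + 1)) ∧
    (∀ n : ℤ, Zs (eb (n + 1)) = ((4 * (n : ℂ) + 3) / (4 * (n : ℂ) + 1)) • eb n) ∧
    (∀ n : ℤ, Q (eb n) = (2 / (4 * (n : ℂ) + 3)) • eb (n + 1)) ∧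
    (∀ n : ℤ, X (eb n) =
      (-((16 * (n : ℂ) + 8) / ((4 * (n : ℂ) + 1) * (4 * (n : ℂ) + 3)))) • eb (n + 1))) ∧
  (Z2 * Z - Z * Z2 = (2 : ℂ) • (Q * Q))

/-- WHH-OPR: rotations. -/
def S_OPR : Prop :=
  (∀ (k : Circle) (n : ℤ), R k (eb n) = ((k ^ n : Circle) : ℂ) • eb n) ∧
  (∀ k : Circle, R k * Z = (k : ℂ) • (Z * R k)) ∧
  (∀ k : Circle, R k * X = (k : ℂ) • (X * R k)) ∧
  (∀ k l : Circle, R k * R l = R (k * l)) ∧ R 1 = 1 ∧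
  (∀ k : Circle, adjoint (R k) = R k⁻¹) ∧
  (∀ (k : Circle) (f : E) (n : ℤ), co (R k f) n = ((k ^ n : Circle) : ℂ) * co f n)

/-- WHH-OPJ: the real structure. -/
def S_OPJ : Prop :=
  (∀ f, jj (Z f) = Zi (jj f)) ∧ (∀ f, jj (Z2 f) = Zs (jj f)) ∧
  (∀ f, jj (Zi f) = Z (jj f)) ∧ (∀ f, jj (Zs f) = Z2 (jj f)) ∧
  (∀ (k : Circle) f, jj (R k f) = R k (jj f)) ∧
  (∀ f, jj (jj f) = f) ∧ (∀ f g, jj (f + g) = jj f + jj g) ∧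
  (∀ (c : ℂ) f, jj (c • f) = conj c • jj f) ∧ (∀ f, ‖jj f‖ = ‖f‖) ∧
  (∀ f g, ⟪jj f, jj g⟫_ℂ = conj ⟪f, g⟫_ℂ) ∧ (∀ n : ℤ, jj (eb n) = eb (-n)) ∧
  (∀ f (n : ℤ), co (jj f) n = conj (co f (-n)))

/-- WHH-OPC: coordinates. -/
def S_OPC : Prop :=
  (∀ n m : ℤ, co (eb n) m = if m = n then 1 else 0) ∧
  (∀ f (n : ℤ), co (Z f) n = co f (n - 1)) ∧
  (∀ f (n : ℤ), co (Zi f) n = co f (n + 1)) ∧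
  (∀ f (n : ℤ), co (Z2 f) n = ((4 * (n : ℂ) - 3) / (4 * (n : ℂ) - 1)) * co f (n - 1)) ∧
  (∀ f g (n : ℤ), co (f + g) n = co f n + co g n) ∧
  (∀ (c : ℂ) f (n : ℤ), co (c • f) n = c * co f n) ∧
  (∀ f, ‖f‖ ^ 2 = ∑' n, om n * ‖co f n‖ ^ 2) ∧
  (∀ f, Summable fun n => om n * ‖co f n‖ ^ 2) ∧
  (∀ f g, (∀ n, co f n = co g n) → f = g) ∧
  (∀ (n : ℤ) f, ⟪eb n, f⟫_ℂ = (om n : ℂ) * co f n) ∧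
  (∀ f g, ⟪f, g⟫_ℂ = ∑' n, (om n : ℂ) * (conj (co f n) * co g n)) ∧
  (∀ f g, Summable fun n => (om n : ℂ) * (conj (co f n) * co g n)) ∧
  (∀ a : ℤ → ℂ, (Summable fun n => om n * ‖a n‖ ^ 2) → ∃ f : E, ∀ n, co f n = a n) ∧
  (∀ A B : E →L[ℂ] E, (∀ n, A (eb n) = B (eb n)) → A = B) ∧
  (Dense ((Submodule.span ℂ (Set.range eb) : Submodule ℂ E) : Set E)) ∧
  (∀ f : E, HasSum (fun n => co f n • eb n) f) ∧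
  (∀ A B : E →L[ℂ] E, A * Z = Z * A → B * Z = Z * B → A * B = B * A) ∧
  (∀ A B : E →L[ℂ] E, A * Z = Z * A → B * Z = Z * B → A (eb 0) = B (eb 0) → A = B)

/-- WHH-INV: invertibility. -/
def S_INV : Prop :=
  ∀ a : ℂ, ‖a‖ < 1 → IsUnit (1 - a • Z) ∧ IsUnit (1 - a • Zi) ∧ IsUnit (1 - a • Z2) ∧
    IsUnit (1 - a • Zs) ∧ IsUnit (Z - a • (1 : E →L[ℂ] E)) ∧ IsUnit (Z2 - a • (1 : E →L[ℂ] E))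

/-- the matrix of `log (1 - r Z) + log (1 - r Z⁻¹)` -/
def LogMat (r : ℝ) (L : E →L[ℂ] E) : Prop :=
  ∀ n m : ℤ, (L (lp.single 2 n (1 : ℂ))) m =
    if m = n then 0 else
      (-(r ^ (m - n).natAbs / ((m - n).natAbs : ℝ) * Real.sqrt (om m / om n)) : ℝ)

/-- WHH-LOG: the logarithms. -/
def S_LOG : Prop :=
  ∀ r : ℝ, 0 ≤ r → r < 1 → ∃ L : E →L[ℂ] E, LogMat r L ∧ L * Z = Z * L ∧
    (∀ f, jj (L f) = L (jj f)) ∧ (∀ f, jj (adjoint L f) = adjoint L (jj f)) ∧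
    Z * adjoint L - adjoint L * Z =
      -((2 : ℂ) • (Q * (-((r : ℂ) • Ring.inverse (1 - (r : ℂ) • Z2))
        + (r : ℂ) • (Zs * Zs * Ring.inverse (1 - (r : ℂ) • Zs))) * Q))

/-- WHH-SCH: uniform bound (Schur test). -/
def S_SCH : Prop :=
  ∃ C : ℝ, ∀ (r : ℝ) (L : E →L[ℂ] E), 0 ≤ r → r < 1 → LogMat r L → ‖L - adjoint L‖ ≤ C

/-- WHH-DR: the derivative part for hyperbolic elements. -/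
def S_DR : Prop :=
  ∃ C : ℝ, ∀ r : ℝ, 0 ≤ r → r < 1 → ∃ d : E →L[ℂ] E, adjoint d = -d ∧
    (∀ f, jj (d f) = d (jj f)) ∧ ‖d‖ ≤ C ∧
    ∀ G P P2 P2i : E →L[ℂ] E, G = Ring.inverse (1 - (r : ℂ) • Z) →
      P = (Z - (r : ℂ) • 1) * G →
      P2 = (Z2 - (r : ℂ) • 1) * Ring.inverse (1 - (r : ℂ) • Z2) →
      P2i = (Zs - (r : ℂ) • 1) * Ring.inverse (1 - (r : ℂ) • Zs) →
      ((1 - r ^ 2 : ℝ) : ℂ) • (G * X * G) =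
        -((2 : ℂ) • (P - P2) + (P - P2) * P2i * (P - P2)) + (P * d - d * P)

/-- WHH-HV: the base vector. -/
def S_HV : Prop :=
  ∀ r : ℝ, 0 ≤ r → r < 1 → ∃ h : E,
    ((1 - r ^ 2 : ℝ) : ℂ) • Q h =
      (2 / 3 : ℂ) • (((1 : E →L[ℂ] E) + (r : ℂ) • Z2) ((Z + (r : ℂ) • (1 : E →L[ℂ] E)) h)) ∧
    ∃ γ : ℤ → ℝ, (∀ n, 0 ≤ γ n) ∧ 0 < γ 0 ∧ (∀ n, γ (-n) = γ n) ∧
      ∀ n : ℤ, co (h + (r : ℂ) • Z h) n = (-1 : ℂ) ^ n * (γ n : ℂ)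

/-- WHH-REC: from the base vector to an operator which is a multiple of an isometry. -/
def S_REC : Prop :=
  ∀ (r : ℝ) (h : E), 0 ≤ r → r < 1 →
    ((1 - r ^ 2 : ℝ) : ℂ) • Q h =
      (2 / 3 : ℂ) • (((1 : E →L[ℂ] E) + (r : ℂ) • Z2) ((Z + (r : ℂ) • (1 : E →L[ℂ] E)) h)) →
    jj (h + (r : ℂ) • Z h) = h + (r : ℂ) • Z h →
    ∃ V : E →L[ℂ] E, V (eb 0) = h + (r : ℂ) • Z h ∧
      (1 + (r : ℂ) • Z) * V * Z = (Z + (r : ℂ) • (1 : E →L[ℂ] E)) * V ∧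
      (1 + (r : ℂ) • Z2) * V * Z2 = (Z2 + (r : ℂ) • (1 : E →L[ℂ] E)) * V ∧
      ∀ f, ‖V f‖ = ‖h + (r : ℂ) • Z h‖ * ‖f‖

/-- WHH-IRR: irreducibility of the shift. -/
def S_IRR : Prop :=
  ∀ A : E →L[ℂ] E, A * Z = Z * A → A * Zs = Zs * A → ∃ c : ℂ, A = c • (1 : E →L[ℂ] E)

/-- WHH-UNI: unitary implementation of the hyperbolic elements. -/
def S_UNI : Prop :=
  ∀ r : ℝ, 0 ≤ r → r < 1 → ∃ V : E →L[ℂ] E, adjoint V * V = 1 ∧ V * adjoint V = 1 ∧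
    (1 + (r : ℂ) • Z) * V * Z = (Z + (r : ℂ) • (1 : E →L[ℂ] E)) * V ∧
    (∀ f, jj (V f) = V (jj f)) ∧
    ∃ γ : ℤ → ℝ, (∀ n, 0 ≤ γ n) ∧ 0 < γ 0 ∧
      ∀ n : ℤ, co (V (eb 0)) n = (-1 : ℂ) ^ n * (γ n : ℂ)

/-- parameters of a Moebius map `z ↦ c (z - a) / (1 - conj a z)` of the disc -/
structure Mob where
  c : ℂ
  a : ℂ
  hc : ‖c‖ = 1
  ha : ‖a‖ < 1

/-- the Moebius map -/
noncomputable def Mob.act (φ : Mob) (z : ℂ) : ℂ := φ.c * ((z - φ.a) / (1 - conj φ.a * z))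

/-- the Moebius transform of an operator -/
noncomputable def Mob.op {H : Type} [NormedAddCommGroup H] [NormedSpace ℂ H] (φ : Mob)
    (A : H →L[ℂ] H) : H →L[ℂ] H := mob φ.c φ.a A

/-- WHH-MOBC: Moebius functional calculus. -/
def S_MOBC : Prop :=
  ∀ (H : Type) [NormedAddCommGroup H] [NormedSpace ℂ H] [CompleteSpace H] (A : H →L[ℂ] H),
    (∀ a : ℂ, ‖a‖ < 1 → IsUnit (1 - a • A)) →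
    (∀ φ : Mob, (∀ a : ℂ, ‖a‖ < 1 → IsUnit (1 - a • φ.op A))) ∧
    (∀ φ ψ χ : Mob, (∀ z : ℂ, ‖z‖ < 1 → φ.act (ψ.act z) = χ.act z) →
      χ.op A = φ.op (ψ.op A)) ∧
    (∀ (φ : Mob) (G : (H →L[ℂ] H)ˣ),
      φ.op ((G : H →L[ℂ] H) * A * ((G⁻¹ : (H →L[ℂ] H)ˣ) : H →L[ℂ] H)) =
        (G : H →L[ℂ] H) * φ.op A * ((G⁻¹ : (H →L[ℂ] H)ˣ) : H →L[ℂ] H))

/-- WHH-MOBG: the Moebius group. -/
def S_MOBG : Prop :=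
  (∀ φ ψ : Mob, ∃ χ : Mob, ∀ z : ℂ, ‖z‖ < 1 → φ.act (ψ.act z) = χ.act z) ∧
  (∀ φ : Mob, ∃ ψ : Mob, (∀ z : ℂ, ‖z‖ < 1 → φ.act (ψ.act z) = z) ∧
    (∀ z : ℂ, ‖z‖ < 1 → ψ.act (φ.act z) = z)) ∧
  (∀ φ ψ : Mob, (∀ z : ℂ, ‖z‖ < 1 → φ.act (ψ.act z) = z) →
    (∀ z : ℂ, ‖z‖ < 1 → ψ.act (φ.act z) = z)) ∧
  (∀ (φ : Mob) (z : ℂ), ‖z‖ < 1 → ‖φ.act z‖ < 1) ∧
  (∀ φ : Mob, ∃ (k l : Circle) (r : ℝ) (α β ρ σ : Mob), 0 ≤ r ∧ r < 1 ∧ α.c = k ∧ α.a = 0 ∧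
    β.c = l ∧ β.a = 0 ∧ ρ.c = 1 ∧ ρ.a = r ∧
    (∀ z : ℂ, ‖z‖ < 1 → α.act (ρ.act z) = σ.act z) ∧
    (∀ z : ℂ, ‖z‖ < 1 → σ.act (β.act z) = φ.act z))

/-- WHH-BLA: block algebra. -/
def S_BLA : Prop :=
  (∀ A B D A' B' D' : E →L[ℂ] E, blk A B D * blk A' B' D' = blk (A * A') (A * B' + B * D') (D * D')) ∧
  (blk 1 0 1 = 1) ∧
  (∀ A B D A' B' D' : E →L[ℂ] E, blk A B D + blk A' B' D' = blk (A + A') (B + B') (D + D')) ∧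
  (∀ (c : ℂ) (A B D : E →L[ℂ] E), c • blk A B D = blk (c • A) (c • B) (c • D)) ∧
  (∀ A B D A' B' D' : E →L[ℂ] E, blk A B D = blk A' B' D' → A = A' ∧ B = B' ∧ D = D') ∧
  (∀ A B D : E →L[ℂ] E, ‖blk A B D‖ ≤ ‖A‖ + ‖B‖ + ‖D‖) ∧
  (∀ M : E2 →L[ℂ] E2, (∀ x : E2, x.snd = 0 → (M x).snd = 0) → ∃ A B D, M = blk A B D)

/-- WHH-BLM: Moebius transforms of block operators. -/
def S_BLM : Prop :=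
  (∀ (a : ℂ) (A B : E →L[ℂ] E), IsUnit (1 - a • A) → IsUnit (1 - a • blk A B A)) ∧
  (∀ a : ℂ, ‖a‖ < 1 → IsUnit (1 - a • T)) ∧
  (spectrum ℂ T ⊆ Metric.closedBall 0 1) ∧
  (∀ (φ : Mob) (B : E →L[ℂ] E), φ.op (blk Z B Z) = blk (φ.op Z)
      ((φ.c * (1 - conj φ.a * φ.a)) • (Ring.inverse (1 - (conj φ.a) • Z) * B *
        Ring.inverse (1 - (conj φ.a) • Z))) (φ.op Z))

/-- lifts of a Moebius map to the space `E2`: diagonal part `V`, off-diagonal part `V d` -/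
def Lift (φ : Mob) (V d : E →L[ℂ] E) : Prop :=
  adjoint V * V = 1 ∧ V * adjoint V = 1 ∧ (∀ f, jj (V f) = V (jj f)) ∧
  adjoint d = -d ∧ (∀ f, jj (d f) = d (jj f)) ∧
  blk V (V * d) V * φ.op T = T * blk V (V * d) V

/-- positivity -/
def Pos (V : E →L[ℂ] E) : Prop := 0 < (⟪eb 0, V (eb 0)⟫_ℂ).re

/-- WHH-LUN: uniqueness of lifts. -/
def S_LUN : Prop :=
  ∀ (φ : Mob) (V d V' d' : E →L[ℂ] E), Lift φ V d → Lift φ V' d' →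
    d = d' ∧ (V = V' ∨ V = -V') ∧ (Pos V → Pos V' → V = V')

/-- WHH-LEX: existence of lifts. -/
def S_LEX : Prop :=
  (∀ k : Circle, ∀ φ : Mob, φ.c = k → φ.a = 0 → Lift φ (R k⁻¹) 0) ∧
  ∃ C : ℝ, ∀ φ : Mob, ∃ (k l : Circle) (r : ℝ) (V d : E →L[ℂ] E) (γ : ℤ → ℝ),
    0 ≤ r ∧ r < 1 ∧ Lift φ (R k * V * R l) d ∧ ‖d‖ ≤ C ∧ Pos (R k * V * R l) ∧
    (∀ ψ : Mob, ψ.c = 1 → ψ.a = r → ∃ d', Lift ψ V d') ∧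
    (∀ n, 0 ≤ γ n) ∧ 0 < γ 0 ∧ ∀ n : ℤ, co (V (eb 0)) n = (-1 : ℂ) ^ n * (γ n : ℂ)

/-- WHH-LMU: products of lifts. -/
def S_LMU : Prop :=
  (∀ (φ ψ χ : Mob) (V d V' d' : E →L[ℂ] E), (∀ z : ℂ, ‖z‖ < 1 → φ.act (ψ.act z) = χ.act z) →
    Lift φ V d → Lift ψ V' d' → Lift χ (V * V') (d' + adjoint V' * d * V')) ∧
  (∀ (φ ψ : Mob) (V d : E →L[ℂ] E), (∀ z : ℂ, ‖z‖ < 1 → φ.act (ψ.act z) = z) →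
    Lift φ V d → Lift ψ (adjoint V) (-(V * d * adjoint V)))

/-- WHH-SGN: a continuity argument. -/
def S_SGN : Prop :=
  ∀ (g g' : E) (γ γ' : ℤ → ℝ), (∀ n, 0 ≤ γ n) → 0 < γ 0 → (∀ n, 0 ≤ γ' n) → 0 < γ' 0 →
    (∀ n : ℤ, co g n = (-1 : ℂ) ^ n * (γ n : ℂ)) → (∀ n : ℤ, co g' n = (-1 : ℂ) ^ n * (γ' n : ℂ)) →
    (∀ k : Circle, (⟪g, R k g'⟫_ℂ).im = 0 ∧ ⟪g, R k g'⟫_ℂ ≠ 0) →
    ∀ k : Circle, 0 < (⟪g, R k g'⟫_ℂ).re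

/-- WHH-POS: positivity is multiplicative. -/
def S_POS : Prop :=
  ∀ (φ ψ : Mob) (V d V' d' : E →L[ℂ] E), Lift φ V d → Lift ψ V' d' → Pos V → Pos V' →
    Pos (V * V')

/-- WHH-GAM: the uniformly bounded homomorphic intertwiner. -/
def S_GAM : Prop :=
  ∃ (Γ : Mob → (E2 →L[ℂ] E2)ˣ) (C : ℝ),
    (∀ φ : Mob, (Γ φ : E2 →L[ℂ] E2) * φ.op T = T * (Γ φ : E2 →L[ℂ] E2)) ∧
    (∀ φ ψ χ : Mob, (∀ z : ℂ, ‖z‖ < 1 → φ.act (ψ.act z) = χ.act z) → Γ χ = Γ φ * Γ ψ) ∧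
    (∀ φ : Mob, ‖(Γ φ : E2 →L[ℂ] E2)‖ ≤ C)

/-- WHH-GRO: growth characterisation of the first summand. -/
def S_GRO : Prop :=
  ∀ x : E2, x.snd = 0 ↔ ∃ C : ℝ, ∀ N : ℕ, ‖(T ^ N) x‖ ^ 2 ≤ C * om N

/-- WHH-COM: the commutant of `T`. -/
def S_COM : Prop :=
  ∀ D : (E2 →L[ℂ] E2)ˣ, (D : E2 →L[ℂ] E2) * T = T * (D : E2 →L[ℂ] E2) →
    ∃ (A : (E →L[ℂ] E)ˣ) (B : E →L[ℂ] E), (D : E2 →L[ℂ] E2) = blk (A : E →L[ℂ] E) B (A : E →L[ℂ] E)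

/-- WHH-ORT: orthogonalisation. -/
def S_ORT : Prop :=
  ∀ S : (E2 →L[ℂ] E2)ˣ, ∃ (P B : E →L[ℂ] E) (m : ℝ), 0 < m ∧ adjoint P = P ∧
    (∀ f, m * ‖f‖ ^ 2 ≤ (⟪f, P f⟫_ℂ).re) ∧
    ∀ (U : E2 →L[ℂ] E2) (W : (E →L[ℂ] E)ˣ) (C12 C2 : E →L[ℂ] E),
      adjoint U * U = 1 → U * adjoint U = 1 →
      (S : E2 →L[ℂ] E2) * blk (W : E →L[ℂ] E) C12 C2 = U * (S : E2 →L[ℂ] E2) →
      adjoint (W : E →L[ℂ] E) * P * (W : E →L[ℂ] E) = P ∧ C12 = B * C2 - (W : E →L[ℂ] E) * B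

/-- WHH-LOW: lower bound in the unweighted norm for invertible operators commuting with `Z`. -/
def S_LOW : Prop :=
  ∀ M : (E →L[ℂ] E)ˣ, (M : E →L[ℂ] E) * Z = Z * (M : E →L[ℂ] E) →
    1 ≤ ‖((M⁻¹ : (E →L[ℂ] E)ˣ) : E →L[ℂ] E)‖ ^ 2 * ∑' n, ‖co ((M : E →L[ℂ] E) (eb 0)) n‖ ^ 2

/-- WHH-CPT: averages of rank one operators. -/
def S_CPT : Prop :=
  ∀ (K : Type) [NormedAddCommGroup K] [InnerProductSpace ℂ K] [CompleteSpace K]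
    (U : K →L[ℂ] K) (x : K) (s : Finset ℤ) (η : ℤ → K) (c : ℝ), adjoint U * U = 1 →
    U * adjoint U = 1 → 0 < c →
    (∀ j : ℕ, c ≤ ∑ i ∈ s, ‖⟪η i, (U ^ j) x⟫_ℂ‖ ^ 2) →
    ∃ C : K →L[ℂ] K, IsCompactOperator C ∧ adjoint C = C ∧ (∀ f, 0 ≤ (⟪f, C f⟫_ℂ).re) ∧
      C ≠ 0 ∧ C * U = U * C ∧
      ∀ (v : K) (l : ℂ), ‖l‖ = 1 → U v = l • v → (⟪v, C v⟫_ℂ).re = ‖⟪v, x⟫_ℂ‖ ^ 2

/-- WHH-WIE: Wiener lemma for unitary operators. -/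
def S_WIE : Prop :=
  ∀ (K : Type) [NormedAddCommGroup K] [InnerProductSpace ℂ K] [CompleteSpace K]
    (U : K →L[ℂ] K) (x : K) (s : Finset ℤ) (η : ℤ → K) (c : ℝ), adjoint U * U = 1 →
    U * adjoint U = 1 → 0 < c →
    (∀ j : ℕ, c ≤ ∑ i ∈ s, ‖⟪η i, (U ^ j) x⟫_ℂ‖ ^ 2) →
    ∃ (l : ℂ) (v : K), ‖l‖ = 1 ∧ U v = l • v ∧ ⟪v, x⟫_ℂ ≠ 0

/-- WHH-WI2: the version for an equivalent norm. -/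
def S_WI2 : Prop :=
  ∀ (P : E →L[ℂ] E) (m : ℝ) (W : (E →L[ℂ] E)ˣ) (x : E) (s : Finset ℤ) (η : ℤ → E) (c : ℝ),
    0 < m → adjoint P = P → (∀ f, m * ‖f‖ ^ 2 ≤ (⟪f, P f⟫_ℂ).re) →
    adjoint (W : E →L[ℂ] E) * P * (W : E →L[ℂ] E) = P → 0 < c →
    (∀ j : ℕ, c ≤ ∑ i ∈ s, ‖⟪η i, ((W : E →L[ℂ] E) ^ j) x⟫_ℂ‖ ^ 2) →
    ∃ (l : ℂ) (F : E), ‖l‖ = 1 ∧ F ≠ 0 ∧ (W : E →L[ℂ] E) F = l • F ∧
      Tendsto (fun N : ℕ => ((N : ℂ) + 1)⁻¹ •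
        ∑ j ∈ Finset.range (N + 1), (l⁻¹) ^ j • ((W : E →L[ℂ] E) ^ j) x) atTop (nhds F)

/-- WHH-KN1: existence of a nonzero operator. -/
def S_KN1 : Prop :=
  ∀ (P : E →L[ℂ] E) (m : ℝ) (k : Circle) (W : (E →L[ℂ] E)ˣ), 0 < m → adjoint P = P →
    (∀ f, m * ‖f‖ ^ 2 ≤ (⟪f, P f⟫_ℂ).re) →
    adjoint (W : E →L[ℂ] E) * P * (W : E →L[ℂ] E) = P →
    (k : ℂ) • ((W : E →L[ℂ] E) * Z) = Z * (W : E →L[ℂ] E) →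
    ∃ (A : E →L[ℂ] E) (l : ℂ), ‖l‖ = 1 ∧ A * Z = Z * A ∧ A ≠ 0 ∧
      (W : E →L[ℂ] E) * A = l • (A * R k⁻¹)

/-- WHH-KN2: it is bounded below. -/
def S_KN2 : Prop :=
  ∀ (P : E →L[ℂ] E) (m : ℝ) (k : Circle) (W : (E →L[ℂ] E)ˣ) (A : E →L[ℂ] E) (l : ℂ), 0 < m →
    adjoint P = P → (∀ f, m * ‖f‖ ^ 2 ≤ (⟪f, P f⟫_ℂ).re) → (∀ n : ℤ, n ≠ 0 → k ^ n ≠ 1) →
    adjoint (W : E →L[ℂ] E) * P * (W : E →L[ℂ] E) = P → ‖l‖ = 1 → A * Z = Z * A → A ≠ 0 →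
    (W : E →L[ℂ] E) * A = l • (A * R k⁻¹) →
    (∀ n n' : ℤ, n ≠ n' → ⟪eb n, (adjoint A * P * A) (eb n')⟫_ℂ = 0) ∧
    (∃ c : ℝ, 0 < c ∧ ∀ n : ℤ, c * om n ≤ (⟪eb n, (adjoint A * P * A) (eb n)⟫_ℂ).re) ∧
    (∃ c : ℝ, 0 < c ∧ ∀ f, c * ‖f‖ ≤ ‖A f‖)

/-- WHH-KN3: it is onto. -/
def S_KN3 : Prop :=
  ∀ (P : E →L[ℂ] E) (m : ℝ) (k : Circle) (W : (E →L[ℂ] E)ˣ) (A : E →L[ℂ] E) (l : ℂ), 0 < m →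
    adjoint P = P → (∀ f, m * ‖f‖ ^ 2 ≤ (⟪f, P f⟫_ℂ).re) → (∀ n : ℤ, n ≠ 0 → k ^ n ≠ 1) →
    adjoint (W : E →L[ℂ] E) * P * (W : E →L[ℂ] E) = P → ‖l‖ = 1 → A * Z = Z * A → A ≠ 0 →
    (k : ℂ) • ((W : E →L[ℂ] E) * Z) = Z * (W : E →L[ℂ] E) →
    (W : E →L[ℂ] E) * A = l • (A * R k⁻¹) → (∃ c : ℝ, 0 < c ∧ ∀ f, c * ‖f‖ ≤ ‖A f‖) →
    Function.Surjective A

/-- WHH-KN: normalisation of the rotations. -/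
def S_KN : Prop :=
  ∀ (P : E →L[ℂ] E) (m : ℝ) (k : Circle) (W : (E →L[ℂ] E)ˣ), 0 < m → adjoint P = P →
    (∀ f, m * ‖f‖ ^ 2 ≤ (⟪f, P f⟫_ℂ).re) → (∀ n : ℤ, n ≠ 0 → k ^ n ≠ 1) →
    adjoint (W : E →L[ℂ] E) * P * (W : E →L[ℂ] E) = P →
    (k : ℂ) • ((W : E →L[ℂ] E) * Z) = Z * (W : E →L[ℂ] E) →
    ∃ (F : (E →L[ℂ] E)ˣ) (l : ℂ), ‖l‖ = 1 ∧ (F : E →L[ℂ] E) * Z = Z * (F : E →L[ℂ] E) ∧
      (W : E →L[ℂ] E) * (F : E →L[ℂ] E) = l • ((F : E →L[ℂ] E) * R k⁻¹)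

/-- WHH-DIA: diagonal form after the normalisation. -/
def S_DIA : Prop :=
  ∀ (P : E →L[ℂ] E) (m : ℝ) (k : Circle) (W F : (E →L[ℂ] E)ˣ) (l : ℂ) (Y B : E →L[ℂ] E), 0 < m →
    adjoint P = P → (∀ f, m * ‖f‖ ^ 2 ≤ (⟪f, P f⟫_ℂ).re) → (∀ n : ℤ, n ≠ 0 → k ^ n ≠ 1) →
    adjoint (W : E →L[ℂ] E) * P * (W : E →L[ℂ] E) = P → ‖l‖ = 1 →
    (F : E →L[ℂ] E) * Z = Z * (F : E →L[ℂ] E) →
    (W : E →L[ℂ] E) * (F : E →L[ℂ] E) = l • ((F : E →L[ℂ] E) * R k⁻¹) →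
    Y = X + Z * B - B * Z → (k : ℂ) • ((W : E →L[ℂ] E) * Y) = Y * (W : E →L[ℂ] E) →
    ∃ (ν : ℤ → ℝ) (y : ℤ → ℂ) (c : ℝ), 0 < c ∧ (∀ n, c * om n ≤ ν n) ∧
      (∀ n n' : ℤ, ⟪eb n, (adjoint (F : E →L[ℂ] E) * P * (F : E →L[ℂ] E)) (eb n')⟫_ℂ =
        if n = n' then (ν n : ℂ) else 0) ∧
      (∀ n, (((F⁻¹ : (E →L[ℂ] E)ˣ) : E →L[ℂ] E) * Y * (F : E →L[ℂ] E)) (eb n) =
        y n • eb (n + 1)) ∧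
      (∀ N : ℤ, ∃ n, N ≤ n ∧ y n ≠ 0)

/-- WHH-ALG: pure algebra of recursions. -/
def S_ALG : Prop :=
  ∀ (r : ℝ) (q ν : ℤ → ℝ) (y : ℤ → ℂ) (h : ℤ → ℤ → ℂ), 0 < r → r < 1 → (∀ n, 0 < ν n) →
    (∀ n, q n = 1 - ν n / ν (n + 1)) → (∀ n, ∃ k, h n k ≠ 0) →
    (∀ n k : ℤ, (1 - (r : ℂ) ^ 2) * (q k : ℂ) * h n k = (q n : ℂ) * (h n k + r * h n (k + 1)
      + r * (1 - (q k : ℂ)) * (h n (k - 1) + r * h n k))) →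
    (∀ n k : ℤ, (1 - (r : ℂ) ^ 2) * y k * h n k = y n * (h n k + r * h n (k + 1)
      + r * (h n (k - 1) + r * h n k))) →
    (∀ n k : ℤ, h (n + 1) k + r * h (n + 1) (k - 1) = h n (k - 1) + r * h n k) →
    (∀ N : ℤ, ∃ n, N ≤ n ∧ q n ≠ 0) → (∀ N : ℤ, ∃ n, N ≤ n ∧ y n ≠ 0) →
    ∃ n₀ : ℤ, ∀ n, n₀ ≤ n → ν (n + 2) = ν n

/-- WHH-FIN: contradiction for diagonal data. -/
def S_FIN : Prop :=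
  ∀ (r : ℝ) (ν : ℤ → ℝ) (y : ℤ → ℂ) (c : ℝ) (N Y : E →L[ℂ] E) (W : (E →L[ℂ] E)ˣ),
    0 < r → r < 1 → 0 < c → (∀ n, c * om n ≤ ν n) → adjoint N = N →
    (∀ n n' : ℤ, ⟪eb n, N (eb n')⟫_ℂ = if n = n' then (ν n : ℂ) else 0) →
    (∀ n, Y (eb n) = y n • eb (n + 1)) → (∀ M : ℤ, ∃ n, M ≤ n ∧ y n ≠ 0) →
    adjoint (W : E →L[ℂ] E) * N * (W : E →L[ℂ] E) = N →
    (W : E →L[ℂ] E) * ((Z - (r : ℂ) • 1) * Ring.inverse (1 - (r : ℂ) • Z)) =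
      Z * (W : E →L[ℂ] E) →
    (W : E →L[ℂ] E) * (((1 - r ^ 2 : ℝ) : ℂ) • (Ring.inverse (1 - (r : ℂ) • Z) * Y *
      Ring.inverse (1 - (r : ℂ) • Z))) = Y * (W : E →L[ℂ] E) → False

/-- WHH-NH: the operator is not similar to a homogeneous operator (only a rotation of infinite
order and one hyperbolic element are used). -/
def S_NH : Prop :=
  ∀ (S : (E2 →L[ℂ] E2)ˣ),
    (∀ φ : Mob, ∃ U : E2 →L[ℂ] E2, adjoint U * U = 1 ∧ U * adjoint U = 1 ∧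
      φ.op ((S : E2 →L[ℂ] E2) * T * ((S⁻¹ : (E2 →L[ℂ] E2)ˣ) : E2 →L[ℂ] E2)) =
        adjoint U * ((S : E2 →L[ℂ] E2) * T * ((S⁻¹ : (E2 →L[ℂ] E2)ˣ) : E2 →L[ℂ] E2)) * U) → False

end Pool.Agent.W680.WH
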